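import Pool.Agent.N145.PL.Stm

/-!
Logarithmic differentials of a curve after an extension of the constant field.
-/

set_option autoImplicit false
set_option linter.overlappingInstances false
set_option linter.unusedSectionVars false

open Polynomial FF IsDedekindDomain IntermediateField

namespace Pool.Agent.N342.LG

open Pool.Agent.W603.LV Pool.Agent.W619.PQ Pool.Agent.N145.PC Pool.Agent.N145.PL

section

variable {k F0 Λ E : Type} [Field k] [Field F0] [Field Λ] [Field E] [Algebra k F0] [Algebra k Λ]
  [Algebra Λ E] [Algebra F0 E] [Algebra k E] [IsScalarTower k Λ E] [IsScalarTower k F0 E]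
  [CharZero k] [IsAlgClosed k] [IsFF k F0] [CharZero Λ] [IsAlgClosed Λ] [IsFF Λ E]

/-- a place lies over at most one place -/
theorem over_eq {P P' : Place k F0} {Q : Place Λ E} {e e' : ℕ} (he : 0 < e) (he' : 0 < e')
    (h : ∀ v : F0, Q.ord (algebraMap F0 E v) = e * P.ord v)
    (h' : ∀ v : F0, Q.ord (algebraMap F0 E v) = e' * P'.ord v) : P = P' := by
  have h1 : ∀ v : F0, (e : ℤ) * P.ord v = e' * P'.ord v := fun v => by rw [← h, h']
  obtain ⟨t, -, ht⟩ := P.surj
  obtain ⟨t', -, ht'⟩ := P'.surj
  have h2 := h1 t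
  have h3 := h1 t'
  rw [ht, mul_one] at h2
  rw [ht', mul_one] at h3
  have e1 : (e' : ℤ) ∣ e := ⟨_, h2⟩
  have e2 : (e : ℤ) ∣ e' := ⟨_, h3.symm⟩
  have e3 : (e : ℤ) = e' := Int.dvd_antisymm (by positivity) (by positivity) e2 e1
  have h4 : P.ord = P'.ord := by
    funext v
    have h5 := h1 v
    rw [e3] at h5
    have h6 : (e' : ℤ) ≠ 0 := by exact_mod_cast he'.ne'
    exact mul_left_cancel₀ h6 h5
  exact Place.ext h4

/-- regular differentials are combinations of functions on the curve -/
theorem mem_spanL (hgen : IntermediateField.adjoin Λ (Set.range (algebraMap F0 E)) = ⊤)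
    {x : F0} (hx : Transcendental k x) (hx' : Transcendental Λ (algebraMap F0 E x))
    {D : Derivation Λ E E} (hD : D (algebraMap F0 E x) = 1) {f : E}
    (hf : ∀ w : Place Λ E, 0 ≤ w.ord (algebraMap F0 E x) → Ge w (vo w D) f) :
    f ∈ Submodule.span Λ (Set.range (algebraMap F0 E)) := by
  classical
  have hfin0 : FiniteDimensional k⟮x⟯ F0 := IsFF.finite hx
  have hfin : FiniteDimensional Λ⟮algebraMap F0 E x⟯ E := IsFF.finite hx'
  have hchar0 : CharZero k⟮x⟯ := charZero_of_injective_algebraMap (algebraMap k k⟮x⟯).injective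
  have hchar : CharZero Λ⟮algebraMap F0 E x⟯ :=
    charZero_of_injective_algebraMap (algebraMap Λ Λ⟮algebraMap F0 E x⟯).injective
  obtain ⟨y, hy⟩ := Field.exists_primitive_element k⟮x⟯ F0
  obtain ⟨p, hp⟩ : ∃ p, p = minpoly k⟮x⟯ y := ⟨_, rfl⟩
  have hint : IsIntegral k⟮x⟯ y := Algebra.IsIntegral.isIntegral y
  have hpy : aeval y p = 0 := by rw [hp, minpoly.aeval]
  have hpy' : aeval y (derivative p) ≠ 0 := by
    refine Separable.aeval_derivative_ne_zero ?_ hpy
    rw [hp]
    exact (minpoly.irreducible hint).separable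
  -- the field of rational functions
  have hmem : ∀ r : k⟮x⟯, algebraMap F0 E (r : F0) ∈ Λ⟮algebraMap F0 E x⟯ := by
    rintro ⟨r, hr⟩
    rw [mem_adjoin_simple_iff] at hr
    obtain ⟨a, b, rfl⟩ := hr
    have h1 : ∀ a : k[X], algebraMap F0 E (aeval x a) ∈ Λ⟮algebraMap F0 E x⟯ := by
      intro a
      induction a using Polynomial.induction_on' with
      | add a b ha hb => rw [map_add, map_add]; exact add_mem ha hb
      | monomial n c =>
        rw [aeval_monomial, map_mul, map_pow, ← IsScalarTower.algebraMap_apply k F0 E,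
          IsScalarTower.algebraMap_apply k Λ E]
        exact mul_mem (IntermediateField.algebraMap_mem _ _)
          (pow_mem (mem_adjoin_simple_self _ _) _)
    change algebraMap F0 E (aeval x a / aeval x b) ∈ _
    rw [map_div₀]
    exact div_mem (h1 a) (h1 b)
  let ρ : k⟮x⟯ →+* Λ⟮algebraMap F0 E x⟯ :=
    ((algebraMap F0 E).comp (algebraMap k⟮x⟯ F0)).codRestrict _ hmem
  have hρ : ∀ r, algebraMap Λ⟮algebraMap F0 E x⟯ E (ρ r) = algebraMap F0 E (algebraMap k⟮x⟯ F0 r) :=
    fun r => rfl
  have hcomp : (algebraMap Λ⟮algebraMap F0 E x⟯ E).comp ρ =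
      (algebraMap F0 E).comp (algebraMap k⟮x⟯ F0) := RingHom.ext hρ
  -- the quotient
  obtain ⟨δ, hδ⟩ : ∃ δ : F0[X], δ * (X - C y) = p.map (algebraMap k⟮x⟯ F0) := by
    have h1 : X - C y ∣ p.map (algebraMap k⟮x⟯ F0) := by
      rw [dvd_iff_isRoot, IsRoot.def, eval_map_algebraMap, hpy]
    obtain ⟨δ, hδ⟩ := h1
    exact ⟨δ, by rw [hδ, mul_comm]⟩
  have hyE : Λ⟮algebraMap F0 E x⟯⟮algebraMap F0 E y⟯ = ⊤ := by
    rw [eq_top_iff]
    intro z _
    have h1 : z ∈ IntermediateField.adjoin Λ (Set.range (algebraMap F0 E)) := by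
      rw [hgen]
      trivial
    have h2 : IntermediateField.adjoin Λ (Set.range (algebraMap F0 E)) ≤
        (Λ⟮algebraMap F0 E x⟯⟮algebraMap F0 E y⟯).restrictScalars Λ := by
      rw [IntermediateField.adjoin_le_iff]
      rintro _ ⟨v, rfl⟩
      have h3 : v ∈ (⊤ : IntermediateField k⟮x⟯ F0) := trivial
      rw [← hy] at h3
      have h4 : v ∈ Algebra.adjoin k⟮x⟯ {y} := by
        rw [← IntermediateField.adjoin_simple_toSubalgebra_of_isAlgebraic hint.isAlgebraic]
        exact h3
      rw [Algebra.adjoin_singleton_eq_range_aeval] at h4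
      obtain ⟨g, hg⟩ := h4
      have hg' : aeval y g = v := hg
      rw [← hg']
      change algebraMap F0 E (aeval y g) ∈ Λ⟮algebraMap F0 E x⟯⟮algebraMap F0 E y⟯
      rw [aeval_eq_sum_range, map_sum]
      refine sum_mem fun i _ => ?_
      rw [Algebra.smul_def, map_mul, map_pow, ← hρ]
      exact mul_mem (IntermediateField.algebraMap_mem _ _) (pow_mem (mem_adjoin_simple_self _ _) _)
    exact h2 h1
  have haev : ∀ g : k⟮x⟯[X], aeval (algebraMap F0 E y) (g.map ρ) = algebraMap F0 E (aeval y g) := by
    intro g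
    rw [aeval_def, eval₂_map, hcomp, aeval_def, hom_eval₂]
  have heuler := Pool.Agent.R882.KR.euler (k := Λ⟮algebraMap F0 E x⟯) (F := E) hyE
    (p := p.map ρ) (by rw [haev, hpy, map_zero]) (by
      rw [derivative_map, haev]
      simpa using hpy') (δ := δ.map (algebraMap F0 E)) (by
      have h1 := congrArg (Polynomial.map (algebraMap F0 E)) hδ
      rw [Polynomial.map_mul, Polynomial.map_sub, map_X, map_C] at h1
      rw [h1, Polynomial.map_map, Polynomial.map_map, hcomp]) (N := δ.natDegree + 1)
      (Nat.lt_succ_of_le natDegree_map_le) f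
  rw [← heuler]
  refine Submodule.sum_mem _ fun j _ => ?_
  rw [derivative_map, haev, coeff_map, mul_div_assoc, ← map_div₀]
  obtain ⟨d, hd⟩ : ∃ d : F0, d = δ.coeff j / aeval y (derivative p) := ⟨_, rfl⟩
  rw [← hd]
  -- the trace
  obtain ⟨g, hg0, hgB, -⟩ := clear hx d
  obtain ⟨P, hP⟩ := trace_poly hx' hD (z := f * algebraMap F0 E (aeval x g * d)) (by
    intro w hw
    have h1 : Ge w 0 (algebraMap F0 E (aeval x g * d)) := by
      rcases over_or (k := k) (F0 := F0) w with h2 | ⟨P, e, he, hv⟩
      · right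
        rw [h2]
      · have h3 : 0 ≤ P.ord x := by
          rw [hv] at hw
          have h4 : (0 : ℤ) < e := by exact_mod_cast he
          by_contra hcon
          push Not at hcon
          nlinarith
        have h5 := ge_above he hv (hgB P h3)
        simpa using h5
    have h2 := (hf w hw).mul h1
    simpa using h2)
  have hgE : algebraMap F0 E (aeval x g) ≠ 0 := by
    rw [Ne, map_eq_zero]
    exact fun h => hg0 ((transcendental_iff_injective.1 hx) (by rw [h, map_zero]))
  have h1 : algebraMap F0 E (aeval x g) * ((Algebra.trace Λ⟮algebraMap F0 E x⟯ E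
      (f * algebraMap F0 E d) : Λ⟮algebraMap F0 E x⟯) : E) = aeval (algebraMap F0 E x) P := by
    have h2 : f * algebraMap F0 E (aeval x g * d) =
        ((ρ (px x g) : Λ⟮algebraMap F0 E x⟯) : E) * (f * algebraMap F0 E d) := by
      have h3 : ((ρ (px x g) : Λ⟮algebraMap F0 E x⟯) : E) = algebraMap F0 E (aeval x g) := by
        rw [← coe_px]
        rfl
      rw [h3, map_mul]
      ring
    rw [h2, trace_mul_left] at hP
    have h4 := congrArg (Subtype.val : Λ⟮algebraMap F0 E x⟯ → E) hP
    rw [coe_px] at h4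
    rw [← h4]
    have h3 : ((ρ (px x g) : Λ⟮algebraMap F0 E x⟯) : E) = algebraMap F0 E (aeval x g) := by
      rw [← coe_px]
      rfl
    rw [← h3]
    rfl
  have h2 : algebraMap Λ⟮algebraMap F0 E x⟯ E (Algebra.trace Λ⟮algebraMap F0 E x⟯ E
      (f * algebraMap F0 E d)) = aeval (algebraMap F0 E x) P * (algebraMap F0 E (aeval x g))⁻¹ := by
    rw [← h1]
    field_simp
    rfl
  rw [h2, aeval_eq_sum_range, Finset.sum_mul, Finset.sum_mul]
  refine Submodule.sum_mem _ fun i _ => ?_
  have h3 : P.coeff i • algebraMap F0 E x ^ i * (algebraMap F0 E (aeval x g))⁻¹ *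
      algebraMap F0 E y ^ j = P.coeff i • algebraMap F0 E (x ^ i * (aeval x g)⁻¹ * y ^ j) := by
    rw [map_mul, map_mul, map_pow, map_pow, map_inv₀, smul_mul_assoc, smul_mul_assoc]
  rw [h3]
  exact Submodule.smul_mem _ _ (Submodule.subset_span ⟨_, rfl⟩)

/-- **Regular differentials after an extension of the constants.** -/
theorem base_changeL (hgen : IntermediateField.adjoin Λ (Set.range (algebraMap F0 E)) = ⊤)
    (htr : ∀ z : F0, Transcendental k z → Transcendental Λ (algebraMap F0 E z))
    {x : F0} (hx : Transcendental k x) {D0 : Derivation k F0 F0} (hD0 : D0 x = 1)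
    {B : Set (Place k F0)} (hB : ∀ P ∈ B, P.ord x < 0)
    {D : Derivation Λ E E} (hD : D (algebraMap F0 E x) = 1) {f : E}
    (hf : f ∈ HL D (above (k := k) (F0 := F0) (Λ := Λ) (E := E) B)) :
    f ∈ Submodule.span Λ (algebraMap F0 E '' (HL D0 B : Set F0)) := by
  classical
  have hD0' : D0 ≠ 0 := by
    rintro rfl
    simp at hD0
  have hD' : D ≠ 0 := by
    rintro rfl
    simp at hD
  have hf' : ∀ w : Place Λ E, Ge w (vo w D - bd (above (k := k) (F0 := F0) B) w) f := hf
  have h1 := mem_spanL hgen hx (htr x hx) hD (f := f) (by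
    intro w hw
    have h2 := hf' w
    have h3 : bd (above (k := k) (F0 := F0) B) w = 0 := by
      unfold bd
      rw [if_neg]
      rintro ⟨P, hP, e, he, hv⟩
      rw [hv] at hw
      have h4 := hB P hP
      have h5 : (0 : ℤ) < e := by exact_mod_cast he
      nlinarith
    rw [h3, sub_zero] at h2
    exact h2)
  -- independent coefficients
  obtain ⟨m, μ, g, hμ, hfg⟩ : ∃ (m : ℕ) (μ : Fin m → Λ) (g : Fin m → F0), LinearIndependent k μ ∧
      f = ∑ s, algebraMap Λ E (μ s) * algebraMap F0 E (g s) := by
    obtain ⟨c, hc⟩ := Finsupp.mem_span_range_iff_exists_finsupp.1 h1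
    let V : Submodule k Λ := Submodule.span k (c '' (c.support : Set F0))
    have hVfin : FiniteDimensional k V :=
      FiniteDimensional.span_of_finite k ((c.support.finite_toSet).image _)
    let b := Module.finBasis k V
    have hcV : ∀ v ∈ c.support, c v ∈ V := fun v hv =>
      Submodule.subset_span ⟨v, Finset.mem_coe.2 hv, rfl⟩
    refine ⟨_, fun s => (b s : Λ), fun s => ∑ v ∈ c.support.attach,
      b.repr ⟨c v.1, hcV v.1 v.2⟩ s • v.1, b.linearIndependent.map' V.subtype
        (Submodule.ker_subtype V), ?_⟩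
    rw [← hc, Finsupp.sum, ← Finset.sum_attach]
    simp only [map_sum, Finset.mul_sum]
    rw [Finset.sum_comm]
    refine Finset.sum_congr rfl fun v _ => ?_
    have h2 := congrArg (fun z : V => algebraMap Λ E (z : Λ)) (b.sum_repr ⟨c v.1, hcV v.1 v.2⟩)
    simp only at h2
    rw [Algebra.smul_def, ← h2, Submodule.coe_sum, map_sum, Finset.sum_mul]
    refine Finset.sum_congr rfl fun s _ => ?_
    rw [Submodule.coe_smul, Algebra.smul_def, map_mul, Algebra.smul_def, map_mul,
      ← IsScalarTower.algebraMap_apply k Λ E, ← IsScalarTower.algebraMap_apply k F0 E]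
    ring
  -- the components are regular
  have hg : ∀ s, g s ∈ HL D0 B := by
    suffices h : ∀ P : Place k F0, ∀ s, Ge P (vo P D0 - bd B P) (g s) from fun s P => h P s
    intro P
    obtain ⟨Q, e, he, hQ⟩ := exists_above htr P
    have he' : (0 : ℤ) < e := by exact_mod_cast he
    obtain ⟨t, ht0, ht⟩ := P.surj
    have hbd : bd (above (k := k) (F0 := F0) B) Q = bd B P := by
      unfold bd
      by_cases hP : P ∈ B
      · rw [if_pos hP, if_pos]
        exact ⟨P, hP, e, he, hQ⟩
      · rw [if_neg hP, if_neg]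
        rintro ⟨P', hP', e', he2, hQ'⟩
        apply hP
        rw [over_eq he he2 hQ hQ']
        exact hP'
    have hfQ := hf' Q
    rw [hbd] at hfQ
    obtain ⟨c, hc⟩ : ∃ c : ℤ, c = bd B P := ⟨_, rfl⟩
    have hc0 : 0 ≤ c := by
      rw [hc]
      unfold bd
      split_ifs <;> norm_num
    rw [← hc] at hfQ
    rw [← hc]
    have htE : algebraMap F0 E t ≠ 0 := by simpa using ht0
    -- the orders of the derivations
    have hvo : vo Q D = e * vo P D0 - e + 1 := by
      obtain ⟨r, hr1, hr2⟩ := ratio' (K := E) (k := k) (E := F0) hx t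
      have h2 : D (algebraMap F0 E t) = algebraMap F0 E (D0 t) := by
        have h3 := hr2 (D.restrictScalars k)
        have h4 : (D.restrictScalars k) (algebraMap F0 E t) = D (algebraMap F0 E t) := rfl
        have h5 : (D.restrictScalars k) (algebraMap F0 E x) = D (algebraMap F0 E x) := rfl
        rw [h4, h5, hD, mul_one] at h3
        rw [h3, hr1 D0, hD0, mul_one]
      have h3 := (ord_der Q hD' (f := algebraMap F0 E t) (by rw [hQ, ht]; omega)).2
      have h4 := (ord_der P hD0' (f := t) (by omega)).2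
      rw [h2, hQ, hQ, h4, ht] at h3
      linarith
    -- induction
    have key : ∀ j : ℕ, ∀ m0 : ℤ, (∀ s, Ge P m0 (g s)) → m0 + j ≤ vo P D0 - c →
        ∀ s, Ge P (m0 + j) (g s) := by
      intro j
      induction j with
      | zero =>
        intro m0 h _
        simpa using h
      | succ j ih =>
        intro m0 h hle s
        have h2 : ∀ s, Ge P (m0 + 1) (g s) := by
          have h3 : ∀ s, ∃ b : k, Ge P 1 (t ^ (-m0) * g s - algebraMap k F0 b) := by
            intro s
            apply Pool.Agent.W603.LV.exists_const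
            have h4 : Ge P (-m0) (t ^ (-m0)) := Or.inr (by rw [P.ord_zpow, ht, mul_one])
            have h5 := h4.mul (h s)
            simpa using h5
          choose b hb using h3
          have h4 : Ge Q 1 (algebraMap Λ E (∑ s, b s • μ s)) := by
            have h5 : algebraMap Λ E (∑ s, b s • μ s) = algebraMap F0 E t ^ (-m0) * f -
                ∑ s, algebraMap Λ E (μ s) *
                  algebraMap F0 E (t ^ (-m0) * g s - algebraMap k F0 (b s)) := by
              rw [hfg, Finset.mul_sum, ← Finset.sum_sub_distrib, map_sum]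
              refine Finset.sum_congr rfl fun s _ => ?_
              rw [map_sub, map_mul, map_zpow₀, ← IsScalarTower.algebraMap_apply k F0 E,
                IsScalarTower.algebraMap_apply k Λ E, Algebra.smul_def, map_mul]
              ring
            rw [h5]
            refine Ge.sub ?_ (Ge.sum _ _ fun s _ => ?_)
            · have h6 : Ge Q (-m0 * e) (algebraMap F0 E t ^ (-m0)) := Or.inr (by
                rw [Q.ord_zpow, hQ, ht, mul_one])
              refine (h6.mul hfQ).mono ?_
              rw [hvo]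
              have h7 : (e : ℤ) * (m0 + 1 + c) ≤ e * vo P D0 := by
                apply mul_le_mul_of_nonneg_left _ he'.le
                push_cast at hle
                have : (0 : ℤ) ≤ j := Int.natCast_nonneg _
                linarith
              have h8 : c ≤ e * c := le_mul_of_one_le_left hc0 (by omega)
              linarith
            · have h6 := (Ge.const (P := Q) (μ s)).mul (ge_above he hQ (hb s))
              refine h6.mono ?_
              omega
          have h5 := const_eq_zero Q h4
          have h6 := (Fintype.linearIndependent_iff.1 hμ) b h5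
          intro s
          have h7 := hb s
          rw [h6 s, map_zero, sub_zero] at h7
          have h8 : Ge P m0 (t ^ m0) := Or.inr (by rw [P.ord_zpow, ht, mul_one])
          have h9 := h8.mul h7
          rwa [← mul_assoc, ← zpow_add₀ ht0, add_neg_cancel, zpow_zero, one_mul] at h9
        have h3 := ih (m0 + 1) h2 (by push_cast at hle ⊢; linarith) s
        have h4 : m0 + 1 + (j : ℤ) = m0 + ((j + 1 : ℕ) : ℤ) := by push_cast; ring
        rwa [h4] at h3
    obtain ⟨m0, hm0, hm0'⟩ : ∃ m0 : ℤ, (∀ s, Ge P m0 (g s)) ∧ m0 ≤ vo P D0 - c := by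
      refine ⟨-(∑ s, ((P.ord (g s)).natAbs : ℤ)) - |vo P D0 - c|, fun s => ?_, ?_⟩
      · right
        have h2 := Finset.single_le_sum (f := fun s => ((P.ord (g s)).natAbs : ℤ))
          (fun _ _ => by positivity) (Finset.mem_univ s)
        have h3 : ((P.ord (g s)).natAbs : ℤ) ≤ ∑ s, ((P.ord (g s)).natAbs : ℤ) := h2
        have h4 := abs_nonneg (vo P D0 - c)
        omega
      · have h2 : (0 : ℤ) ≤ ∑ s, ((P.ord (g s)).natAbs : ℤ) :=
          Finset.sum_nonneg fun _ _ => by positivity
        have h3 := neg_abs_le (vo P D0 - c)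
        linarith
    intro s
    have h2 := key (vo P D0 - c - m0).toNat m0 hm0 (by omega) s
    have h3 : m0 + ((vo P D0 - c - m0).toNat : ℤ) = vo P D0 - c := by omega
    rwa [h3] at h2
  rw [hfg]
  refine Submodule.sum_mem _ fun s _ => ?_
  rw [← Algebra.smul_def]
  exact Submodule.smul_mem _ _ (Submodule.subset_span ⟨g s, hg s, rfl⟩)

end

theorem BASE : S_BASE := by
  intro k F0 Λ E _ _ _ _ _ _ _ _ _ _ _ _ _ _ _ _ _ hgen htr x hx D0 hD0 B hB D hD f hf
  exact base_changeL hgen htr hx hD0 hB hD hf

end Pool.Agent.N342.LG
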